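import Mathlib

set_option autoImplicit false

namespace Pool.Agent.H.MP_998096_al

theorem cyl (P : ℕ → (ℕ → Bool) → Prop)
    (h : ∀ (r : ℕ) (α : ℕ → Bool) (L : ℕ), ∃ (α' : ℕ → Bool) (L' : ℕ), L < L' ∧
      (∀ k < L, α' k = α k) ∧ ∀ γ : ℕ → Bool, (∀ k < L', γ k = α' k) → P r γ) :
    ∃ γ, ∀ r, P r γ := by
  choose a l h1 h2 h3 using h
  let s : ℕ → (ℕ → Bool) × ℕ := fun n =>
    Nat.rec ((fun _ => false), 0) (fun r p => (a r p.1 p.2, l r p.1 p.2)) n
  have hs : ∀ r, s (r + 1) = (a r (s r).1 (s r).2, l r (s r).1 (s r).2) := fun r => rfl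
  have hlt : ∀ r, (s r).2 < (s (r + 1)).2 := fun r => by rw [hs]; exact h1 _ _ _
  have hmono : StrictMono fun r => (s r).2 := strictMono_nat_of_lt_succ hlt
  have hag : ∀ r r', r ≤ r' → ∀ k < (s r).2, (s r').1 k = (s r).1 k := by
    intro r r' hr
    induction hr with
    | refl => intro k _; rfl
    | step hle ih =>
      intro k hk
      rw [← ih k hk, hs]
      exact h2 _ _ _ k (lt_of_lt_of_le hk (hmono.monotone hle))
  refine ⟨fun k => (s (k + 1)).1 k, fun r => h3 r (s r).1 (s r).2 _ fun k hk => ?_⟩
  have hk1 : k < (s (k + 1)).2 := lt_of_lt_of_le (Nat.lt_succ_self k) (hmono.id_le (k + 1))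
  have e1 := hag (k + 1) (max (k + 1) (r + 1)) (le_max_left _ _) k hk1
  have e2 := hag (r + 1) (max (k + 1) (r + 1)) (le_max_right _ _) k (by rw [hs]; exact hk)
  show (s (k + 1)).1 k = _
  rw [← e1, e2, hs]

theorem diag {C : Type} [AddCommGroup C] (b : ℕ → C) (y : (ℕ → Bool) → ℕ → C)
    {ι : Type} (K : ι → AddSubgroup C) (N : ι → ℕ)
    (h1 : ∀ k, ∃ i, b k ∉ K i)
    (h2 : ∀ x, {i | x ∉ K i}.Finite)
    (h3 : ∀ i, {α : ℕ → Bool | ∃ n, (if α n then b n else 0) + y α n - y α (n + 1) ∉ K i}.Finite)
    (h4 : ∀ i α m, N i ≤ m → y α m ∈ K i) : False := by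
  classical
  let Bad : ι → Set (ℕ → Bool) := fun i =>
    {α : ℕ → Bool | ∃ n, (if α n then b n else 0) + y α n - y α (n + 1) ∉ K i}
  have tel : ∀ i α, α ∉ Bad i → ∀ m,
      (∑ k ∈ Finset.range m, if α k then b k else 0) + y α 0 - y α m ∈ K i := by
    intro i α hα m
    induction m with
    | zero => simp
    | succ m ih =>
      have hm : (if α m then b m else 0) + y α m - y α (m + 1) ∈ K i := by
        by_contra hc
        exact hα ⟨m, hc⟩
      have := (K i).add_mem ih hm
      rw [Finset.sum_range_succ]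
      convert this using 1
      abel
  have bk : ∀ i k, N i ≤ k → b k ∈ K i := by
    intro i k hk
    have hinf : {α : ℕ → Bool | α k = true}.Infinite := by
      refine Set.infinite_of_injective_forall_mem
        (f := fun (n : ℕ) (j : ℕ) => decide (j ≤ k + n)) ?_ ?_
      · intro n n' hn
        have e1 := congrFun hn (k + n)
        have e2 := congrFun hn (k + n')
        simp at e1 e2
        omega
      · intro n; simp
    obtain ⟨α, hα1, hα2⟩ := (hinf.sdiff (h3 i)).nonempty
    have hm : (if α k then b k else 0) + y α k - y α (k + 1) ∈ K i := by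
      by_contra hc
      exact hα2 ⟨k, hc⟩
    have hα1' : α k = true := hα1
    rw [if_pos hα1'] at hm
    have := (K i).sub_mem ((K i).add_mem hm (h4 i α (k + 1) (by omega))) (h4 i α k hk)
    convert this using 1
    abel
  choose I hI using h1
  have hcount : (⋃ k, Bad (I k)).Countable := Set.countable_iUnion fun k => (h3 _).countable
  obtain ⟨e, he⟩ := Set.countable_iff_exists_subset_range.1 hcount
  obtain ⟨γ, hγ⟩ := cyl (fun r γ => γ ≠ e r ∧
      ((∀ k, γ ∉ Bad (I k)) → ∃ k, r ≤ N (I k) ∧ y γ 0 ∉ K (I k))) (by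
    intro r α L
    let k := L + 1 + r
    have hk : k < N (I k) := by
      by_contra hc
      exact hI k (bk _ _ (by omega))
    let α0 := Function.update α L (!(e r L))
    let S : (ℕ → Bool) → C := fun β => ∑ j ∈ Finset.range (N (I k)), if β j then b j else 0
    have hS : S (Function.update α0 k true) = S (Function.update α0 k false) + b k := by
      simp only [S]
      rw [← Finset.add_sum_erase _ _ (Finset.mem_range.2 hk),
        ← Finset.add_sum_erase (Finset.range (N (I k))) _ (Finset.mem_range.2 hk)]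
      have : ∑ j ∈ (Finset.range (N (I k))).erase k,
          (if Function.update α0 k true j then b j else 0) =
          ∑ j ∈ (Finset.range (N (I k))).erase k,
          (if Function.update α0 k false j then b j else 0) := by
        refine Finset.sum_congr rfl fun j hj => ?_
        rw [Function.update_of_ne (Finset.ne_of_mem_erase hj),
          Function.update_of_ne (Finset.ne_of_mem_erase hj)]
      rw [this]
      simp [add_comm]
    have hex : ∃ t : Bool, S (Function.update α0 k t) ∉ K (I k) := by
      by_contra hc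
      push Not at hc
      have := (K (I k)).sub_mem (hc true) (hc false)
      rw [hS] at this
      exact hI k (by simpa using this)
    obtain ⟨t, ht⟩ := hex
    refine ⟨Function.update α0 k t, N (I k), by omega, fun j hj => ?_, fun γ hγ => ⟨?_, ?_⟩⟩
    · rw [Function.update_of_ne (by omega)]
      simp only [α0]
      rw [Function.update_of_ne (by omega)]
    · intro hc
      have := hγ L (by omega)
      rw [Function.update_of_ne (by omega), hc] at this
      simp [α0] at this
    · intro hb
      refine ⟨k, by omega, fun hy => ht ?_⟩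
      have e1 : S γ = S (Function.update α0 k t) := by
        refine Finset.sum_congr rfl fun j hj => ?_
        rw [hγ j (Finset.mem_range.1 hj)]
      rw [← e1]
      have := (K (I k)).sub_mem ((K (I k)).add_mem (tel _ γ (hb k) (N (I k)))
        (h4 (I k) γ (N (I k)) le_rfl)) hy
      convert this using 1
      simp only [S]
      abel)
  have hb : ∀ k, γ ∉ Bad (I k) := by
    intro k hk
    obtain ⟨r, hr⟩ := he (Set.mem_iUnion.2 ⟨k, hk⟩)
    exact (hγ r).1 hr.symm
  obtain ⟨M, hM⟩ := ((h2 (y γ 0)).image N).bddAbove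
  obtain ⟨k, hk1, hk2⟩ := (hγ (M + 1)).2 hb
  have := hM ⟨I k, hk2, rfl⟩
  omega

end Pool.Agent.H.MP_998096_al
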