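import Mathlib

set_option autoImplicit false

namespace Pool.Agent.H.MP_998096_al

@[ext] structure Hs {V C : Type} [AddCommGroup V] [AddCommGroup C] (β : V →+ V →+ C) where
  v : V
  c : C

section
variable {V C V' C' : Type} [AddCommGroup V] [AddCommGroup C] [AddCommGroup V'] [AddCommGroup C']
  {β : V →+ V →+ C} {β' : V' →+ V' →+ C'}

instance : Mul (Hs β) := ⟨fun a b => ⟨a.v + b.v, a.c + b.c + β a.v b.v⟩⟩
instance : One (Hs β) := ⟨⟨0, 0⟩⟩
instance : Inv (Hs β) := ⟨fun a => ⟨-a.v, -a.c + β a.v a.v⟩⟩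

@[simp] theorem mul_v (a b : Hs β) : (a * b).v = a.v + b.v := rfl
@[simp] theorem mul_c (a b : Hs β) : (a * b).c = a.c + b.c + β a.v b.v := rfl
@[simp] theorem one_v : (1 : Hs β).v = 0 := rfl
@[simp] theorem one_c : (1 : Hs β).c = 0 := rfl
@[simp] theorem inv_v (a : Hs β) : (a⁻¹).v = -a.v := rfl
@[simp] theorem inv_c (a : Hs β) : (a⁻¹).c = -a.c + β a.v a.v := rfl

instance : Group (Hs β) := Group.ofLeftAxioms
  (fun a b c => by ext <;> simp <;> abel)
  (fun a => by ext <;> simp)
  (fun a => by ext <;> simp)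

instance [Finite V] [Finite C] : Finite (Hs β) :=
  Finite.of_injective (fun a : Hs β => (a.v, a.c)) fun a b h => by
    ext
    · exact congrArg Prod.fst h
    · exact congrArg Prod.snd h

def hmap (ρ : V →+ V') (μ : C →+ C') (h : ∀ v w, μ (β v w) = β' (ρ v) (ρ w)) : Hs β →* Hs β' where
  toFun a := ⟨ρ a.v, μ a.c⟩
  map_one' := by ext <;> simp
  map_mul' a b := by ext <;> simp [h]

def hab (μ : C →+ C') (h : ∀ v w, μ (β v w) = 0) : Hs β →* Multiplicative C' where
  toFun a := Multiplicative.ofAdd (μ a.c)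
  map_one' := by simp
  map_mul' a b := by simp [h, ofAdd_add]

def cen (β : V →+ V →+ C) : Multiplicative C →* Hs β where
  toFun a := ⟨0, a.toAdd⟩
  map_one' := by ext <;> simp
  map_mul' a b := by ext <;> simp

def zl (n : ℕ) (x : C) (h : n • x = 0) : ZMod n →+ C :=
  ZMod.lift n ⟨zmultiplesHom C x, by simpa using h⟩

theorem zl_one (n : ℕ) (x : C) (h : n • x = 0) : zl n x h 1 = x := by
  have := ZMod.lift_coe n ⟨zmultiplesHom C x, by simpa using h⟩ (1 : ℤ)
  simpa [zl] using this

end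

abbrev F := ZMod 2
abbrev J := (ℕ → Bool) × ℕ
abbrev V := J →₀ F × F
abbrev Z := Π₀ j : J, ZMod (2 ^ (j.2 + 1))
abbrev C := (ℕ →₀ F) × Z

open Classical in
noncomputable def w (j : J) : C := (0, DFinsupp.single j 1)
noncomputable def b (k : ℕ) : C := (Finsupp.single k 1, 0)
noncomputable def y (α : ℕ → Bool) (n : ℕ) : C := 2 ^ n • w (α, n)
noncomputable def c (j : J) : C := (if j.1 j.2 then b j.2 else 0) + y j.1 j.2 - y j.1 (j.2 + 1)

theorem w_ord (j : J) : 2 ^ (j.2 + 1) • w j = 0 := by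
  classical
  have : (2 ^ (j.2 + 1)) • (1 : ZMod (2 ^ (j.2 + 1))) = 0 := by
    rw [nsmul_one, ZMod.natCast_self]
  ext1
  · simp [w]
  · simp only [w, Prod.smul_snd, Prod.snd_zero]
    rw [← DFinsupp.single_smul, this, DFinsupp.single_zero]

theorem b_ord (k : ℕ) : 2 • b k = 0 := by
  have : 2 • (1 : F) = 0 := by decide
  ext1
  · simp only [b, Prod.smul_fst, Prod.fst_zero]
    rw [Finsupp.smul_single, this, Finsupp.single_zero]
  · simp [b]

theorem y_ord (α : ℕ → Bool) (n : ℕ) : 2 • y α n = 0 := by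
  rw [y, smul_smul, ← pow_succ']
  exact w_ord (α, n)

theorem c_ord (j : J) : 2 • c j = 0 := by
  rw [c, smul_sub, smul_add, y_ord, y_ord]
  split_ifs
  · rw [b_ord]; simp
  · simp

noncomputable def κ (j : J) : F →+ C := zl 2 (c j) (c_ord j)

theorem κ_one (j : J) : κ j 1 = c j := zl_one _ _ _

noncomputable def β : V →+ V →+ C := Finsupp.liftAddHom fun j =>
  AddMonoidHom.mk' (fun p : F × F => AddMonoidHom.mk' (fun v : V => κ j (p.1 * (v j).2))
    (fun v v' => by simp [mul_add])) (fun p q => AddMonoidHom.ext fun v => by simp [add_mul])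

theorem β_single (j : J) (p : F × F) (v : V) : β (Finsupp.single j p) v = κ j (p.1 * (v j).2) := by
  simp [β]

theorem κ_kill {A : Type} [AddCommGroup A] (μ : C →+ A) (j : J) (h : μ (c j) = 0) (s : F) :
    μ (κ j s) = 0 := by
  have : ∀ s : F, s = 0 ∨ s = 1 := by decide
  rcases this s with rfl | rfl
  · simp
  · rw [κ_one, h]

noncomputable def βs {A : Type} [AddCommGroup A] (μ : C →+ A) (s : Finset J) :
    (s → F × F) →+ (s → F × F) →+ A :=
  AddMonoidHom.mk' (fun p => AddMonoidHom.mk' (fun q => ∑ i : s, μ (κ i ((p i).1 * (q i).2)))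
    (fun v v' => by simp [mul_add, Finset.sum_add_distrib]))
    (fun p q => by ext1 v; simp [add_mul, Finset.sum_add_distrib])

noncomputable def res (s : Finset J) : V →+ (s → F × F) :=
  AddMonoidHom.mk' (fun v i => v i) (fun _ _ => rfl)

theorem βs_spec {A : Type} [AddCommGroup A] (μ : C →+ A) (s : Finset J)
    (h : ∀ j ∉ s, μ (c j) = 0) (v v' : V) : μ (β v v') = βs μ s (res s v) (res s v') := by
  classical
  induction v using Finsupp.induction_linear with
  | zero => simp
  | add f g hf hg => simp [hf, hg]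
  | single j p =>
    rw [β_single]
    show _ = ∑ i : s, μ (κ i ((Finsupp.single j p i).1 * (v' i).2))
    by_cases hj : j ∈ s
    · rw [Finset.sum_eq_single ⟨j, hj⟩]
      · simp
      · intro i _ hi
        rw [Finsupp.single_eq_of_ne (fun e => hi (Subtype.ext e))]
        simp
      · simp
    · rw [κ_kill μ j (h j hj)]
      refine (Finset.sum_eq_zero fun i _ => ?_).symm
      rw [Finsupp.single_eq_of_ne (fun e => hj (by rw [← e]; exact i.2))]
      simp

noncomputable def co (j : J) : C →+ ZMod (2 ^ (j.2 + 1)) :=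
  AddMonoidHom.mk' (fun x => x.2 j) (fun _ _ => rfl)

open Classical in
noncomputable def sj (j : J) : Finset J := {j, (j.1, j.2 - 1)}

theorem co_w (i j : J) (h : i ≠ j) : co j (w i) = 0 := by
  classical
  show (DFinsupp.single i (1 : ZMod (2 ^ (i.2 + 1))) : Z) j = 0
  exact DFinsupp.single_eq_of_ne h.symm

theorem co_c (j i : J) (h : i ∉ sj j) : co j (c i) = 0 := by
  simp only [sj, Finset.mem_insert, Finset.mem_singleton, not_or] at h
  have h1 : co j (b i.2) = 0 := rfl
  rw [c, map_sub, map_add, y, y, map_nsmul, map_nsmul, co_w _ _ h.1, co_w]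
  · split_ifs <;> simp [h1]
  · rintro rfl
    exact h.2 (by simp)

abbrev G0 := Hs β

abbrev P (j : J) := Hs (βs (co j) (sj j))

noncomputable def π (j : J) : G0 →* P j := hmap (res _) (co j) (βs_spec _ _ (co_c j))

def ee (j : J) (k : ℕ) : ZMod (2 ^ (k + 1)) := if j.2 ≤ k ∧ j.1 k then 2 ^ (k - j.2) else 0

theorem two_pow (k : ℕ) : (2 : ZMod (2 ^ (k + 1))) ^ (k + 1) = 0 := by
  have := ZMod.natCast_self (2 ^ (k + 1))
  rwa [Nat.cast_pow, Nat.cast_ofNat] at this

theorem ee_ord (j : J) (k : ℕ) : 2 ^ (j.2 + 1) • ee j k = 0 := by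
  unfold ee
  split_ifs with h
  · rw [nsmul_eq_mul]
    push_cast
    rw [← pow_add, show j.2 + 1 + (k - j.2) = k + 1 by omega, two_pow]
  · simp

theorem eta_ord (k : ℕ) : 2 • ((2 : ZMod (2 ^ (k + 1))) ^ k) = 0 := by
  rw [nsmul_eq_mul]
  push_cast
  rw [← pow_succ', two_pow]

open Classical in
noncomputable def lam (k : ℕ) : C →+ ZMod (2 ^ (k + 1)) :=
  ((zl 2 _ (eta_ord k)).comp (Finsupp.applyAddHom k)).coprod
    (-DFinsupp.sumAddHom fun j => zl (2 ^ (j.2 + 1)) (ee j k) (ee_ord j k))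

theorem lam_w (k : ℕ) (j : J) : lam k (w j) = -ee j k := by
  simp [lam, w, zl_one]

theorem lam_t (k : ℕ) (t : ℕ →₀ F) : lam k (t, 0) = zl 2 _ (eta_ord k) (t k) := by
  simp [lam]

theorem lam_b (k m : ℕ) : lam k (b m) = if m = k then 2 ^ k else 0 := by
  rw [b, lam_t]
  split_ifs with h
  · subst h; simp [zl_one]
  · rw [Finsupp.single_eq_of_ne (Ne.symm h)]; simp

theorem lam_y (k : ℕ) (α : ℕ → Bool) (n : ℕ) :
    lam k (y α n) = -if n ≤ k ∧ α k then 2 ^ k else 0 := by
  rw [y, map_nsmul, lam_w, smul_neg, ee]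
  split_ifs with h
  · rw [nsmul_eq_mul]
    push_cast
    rw [← pow_add, show n + (k - n) = k by omega]
  · simp

theorem lam_c (k : ℕ) (j : J) : lam k (c j) = 0 := by
  obtain ⟨α, n⟩ := j
  rw [c, map_sub, map_add, lam_y, lam_y, apply_ite (lam k), lam_b, map_zero]
  rcases lt_trichotomy n k with h | rfl | h
  · simp [h.ne, h.le, Nat.succ_le_of_lt h]
  · by_cases hα : α n <;> simp [hα]
  · simp [h.ne', not_le.2 h, show ¬ n + 1 ≤ k by omega]

noncomputable def lamG (k : ℕ) : G0 →* Multiplicative (ZMod (2 ^ (k + 1))) :=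
  hab (lam k) fun v v' => by
    rw [βs_spec (lam k) ∅ (fun j _ => lam_c k j)]
    simp [βs]

theorem π_fin (g : G0) : {j | π j g ≠ 1}.Finite := by
  classical
  refine ((g.v.support.finite_toSet.union
    (g.v.support.finite_toSet.image fun j => (j.1, j.2 + 1))).union
    g.c.2.support.finite_toSet).subset fun j hj => ?_
  by_contra hc
  simp only [Set.mem_union, Finset.mem_coe, Finsupp.mem_support_iff, Set.mem_image,
    DFinsupp.mem_support_iff, not_or, not_not, not_exists, not_and] at hc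
  apply hj
  ext1
  · funext i
    show g.v i = 0
    have hi := i.2
    simp only [sj, Finset.mem_insert, Finset.mem_singleton] at hi
    rcases hi with hi | hi
    · rw [hi]; exact hc.1.1
    · rw [hi]
      by_contra h0
      rcases Nat.eq_zero_or_pos j.2 with h | h
      · apply h0
        rw [← hc.1.1]
        congr 1
        ext1
        · rfl
        · simp [h]
      · exact hc.1.2 _ h0 (Prod.ext rfl (by simp; omega))
  · exact hc.2

theorem π_ker (g : G0) (h : ∀ j, π j g = 1) : g = ⟨0, (g.c.1, 0)⟩ := by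
  ext1
  · ext1 j
    exact congrFun (congrArg Hs.v (h j)) ⟨j, by simp [sj]⟩
  · ext1
    · rfl
    · ext1 j
      exact congrArg Hs.c (h j)

theorem G0_inj (g : G0) (h : ∀ j, π j g = 1) (h' : ∀ k, lamG k g = 1) : g = 1 := by
  rw [π_ker g h] at h' ⊢
  ext1
  · rfl
  · ext1
    · ext1 k
      have h1 : lam k (g.c.1, 0) = 0 := h' k
      rw [lam_t] at h1
      have : ∀ s : F, s = 0 ∨ s = 1 := by decide
      rcases this (g.c.1 k) with e | e
      · exact e
      · rw [e, zl_one] at h1
        have h2 : ((2 ^ k : ℕ) : ZMod (2 ^ (k + 1))) = 0 := by simpa using h1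
        rw [ZMod.natCast_eq_zero_iff] at h2
        have := Nat.le_of_dvd (by positivity) h2
        have h3 : 2 ^ k < 2 ^ (k + 1) := Nat.pow_lt_pow_right (by norm_num) (by omega)
        omega
    · rfl

theorem G0_tor (g : G0) (h : ∀ j, π j g = 1) : IsOfFinOrder g := by
  rw [π_ker g h]
  refine isOfFinOrder_iff_pow_eq_one.2 ⟨2, by norm_num, ?_⟩
  rw [pow_two]
  ext1
  · simp
  · ext1
    · ext1 k
      have : ∀ s : F, s + s = 0 := by decide
      simp [this]
    · simp

theorem G0_count : {g : G0 | ∀ j, π j g = 1}.Countable :=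
  (Set.countable_range fun t : ℕ →₀ F => (⟨0, (t, 0)⟩ : G0)).mono fun g hg =>
    Set.mem_range.2 ⟨g.c.1, (π_ker g hg).symm⟩

end Pool.Agent.H.MP_998096_al
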