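import Mathlib

set_option autoImplicit false

namespace Pool.Agent.H.MP_998096_al

theorem props {H : Type} [Group H] {J K : Type} {Q : J → Type} [∀ j, Group (Q j)]
    [∀ j, Finite (Q j)] {A : K → Type} [∀ k, CommGroup (A k)] [∀ k, Finite (A k)]
    (ρ : ∀ j, H →* Q j) (μ : ∀ k, H →* A k) (hf : ∀ g, {j | ρ j g ≠ 1}.Finite)
    (hinj : ∀ g, (∀ j, ρ j g = 1) → (∀ k, μ k g = 1) → g = 1)
    (htor : ∀ g, (∀ j, ρ j g = 1) → IsOfFinOrder g) :
    (∀ g : H, g ≠ 1 → ∃ N : Subgroup H, N.Normal ∧ N.index ≠ 0 ∧ g ∉ N) ∧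
      Monoid.IsTorsion H ∧ (∀ g : H, Set.Finite {h : H | IsConj g h}) := by
  classical
  refine ⟨fun g hg => ?_, fun g => ?_, fun g => ?_⟩
  · by_cases h1 : ∀ j, ρ j g = 1
    · have h2 : ¬ ∀ k, μ k g = 1 := fun h2 => hg (hinj g h1 h2)
      push Not at h2
      obtain ⟨k, hk⟩ := h2
      exact ⟨(μ k).ker, inferInstance, Subgroup.FiniteIndex.index_ne_zero, hk⟩
    · push Not at h1
      obtain ⟨j, hj⟩ := h1
      exact ⟨(ρ j).ker, inferInstance, Subgroup.FiniteIndex.index_ne_zero, hj⟩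
  · have hn : ∏ j ∈ (hf g).toFinset, Nat.card (Q j) ≠ 0 :=
      Finset.prod_ne_zero_iff.2 fun j _ => Nat.card_pos.ne'
    refine IsOfFinOrder.of_pow (htor _ fun j => ?_) hn
    rw [map_pow]
    by_cases hj : ρ j g = 1
    · rw [hj, one_pow]
    · obtain ⟨m, hm⟩ := Finset.dvd_prod_of_mem (fun j => Nat.card (Q j))
        ((hf g).mem_toFinset.2 hj)
      rw [hm, pow_mul, pow_card_eq_one', one_pow]
  · haveI := (hf g).to_subtype
    refine Set.Finite.of_injOn (f := fun h (j : {j | ρ j g ≠ 1}) => ρ j.1 h)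
      (t := Set.univ) (Set.mapsTo_univ _ _) ?_ Set.finite_univ
    intro h hh h' hh' e
    have key : h⁻¹ * h' = 1 := by
      refine hinj _ (fun j => ?_) (fun k => ?_)
      · by_cases hj : ρ j g = 1
        · have a1 := (ρ j).map_isConj hh
          have a2 := (ρ j).map_isConj hh'
          rw [hj, isConj_one_right] at a1 a2
          rw [map_mul, map_inv, a1, a2]; simp
        · have := congrFun e ⟨j, hj⟩
          simp only at this
          rw [map_mul, map_inv, this]; simp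
      · have a1 := (μ k).map_isConj hh
        have a2 := (μ k).map_isConj hh'
        rw [isConj_iff_eq] at a1 a2
        rw [map_mul, map_inv, ← a1, ← a2]; simp
    exact inv_mul_eq_one.1 key

section W
variable {H : Type} [Group H] {J : Type} {Q : J → Type} [∀ j, Group (Q j)]

def W (ρ : ∀ j, H →* Q j) : Subgroup (H × (∀ j, Equiv.Perm (Q j × Fin 3))) where
  carrier := {p | (∀ j x, (p.2 j x).1 = ρ j p.1 * x.1) ∧ {j | p.2 j ≠ 1}.Finite}
  one_mem' := ⟨fun j x => by simp, by simp⟩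
  mul_mem' := by
    rintro p q ⟨hp1, hp2⟩ ⟨hq1, hq2⟩
    refine ⟨fun j x => ?_, (hp2.union hq2).subset fun j hj => ?_⟩
    · simp [hp1, hq1, mul_assoc]
    · by_contra hc
      simp only [Set.mem_union, Set.mem_setOf_eq, not_or, not_not] at hc
      exact hj (by simp [hc.1, hc.2])
  inv_mem' := by
    rintro p ⟨hp1, hp2⟩
    refine ⟨fun j x => ?_, hp2.subset fun j hj => ?_⟩
    · have := hp1 j ((p.2 j)⁻¹ x)
      simp only [Equiv.Perm.coe_inv, Equiv.apply_symm_apply] at this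
      simp [this]
    · intro hc
      exact hj (by simp [hc])

def lm (j : J) : Q j →* Equiv.Perm (Q j × Fin 3) where
  toFun q := Equiv.prodCongr (Equiv.mulLeft q) (Equiv.refl _)
  map_one' := by ext x <;> simp
  map_mul' a b := by ext x <;> simp [mul_assoc]

def emb (ρ : ∀ j, H →* Q j) (hf : ∀ g, {j | ρ j g ≠ 1}.Finite) : H →* W ρ where
  toFun g := ⟨(g, fun j => lm j (ρ j g)), fun j x => by simp [lm],
    (hf g).subset fun j hj hc => hj (by simp [hc])⟩
  map_one' := by ext1; ext1; rfl; funext j; simp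
  map_mul' a b := by ext1; ext1; rfl; funext j; simp

theorem emb_inj (ρ : ∀ j, H →* Q j) (hf : ∀ g, {j | ρ j g ≠ 1}.Finite) :
    Function.Injective (emb ρ hf) := fun a b h => congrArg (fun p : W ρ => p.1.1) h

theorem W_one (ρ : ∀ j, H →* Q j) (p : W ρ) (j : J) (h : p.1.2 j = 1) : ρ j p.1.1 = 1 := by
  have := p.2.1 j (1, 0)
  rw [h] at this
  simpa using this.symm

theorem center_triv (ρ : ∀ j, H →* Q j) (p : W ρ) (hp : p ∈ Subgroup.center (W ρ)) (j : J) :
    p.1.2 j = 1 := by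
  classical
  have key : ∀ (x : Q j) (s t : Fin 3), Commute (Equiv.swap (x, s) (x, t)) (p.1.2 j) := by
    intro x s t
    have := Subgroup.mem_center_iff.1 hp ⟨(1, Pi.mulSingle j (Equiv.swap (x, s) (x, t))),
      fun i z => ?_, (Set.finite_singleton j).subset fun i hi => ?_⟩
    · have h2 := congrArg (fun q : W ρ => q.1.2 j) this
      simpa [Commute, SemiconjBy] using h2
    · by_cases hi : i = j
      · subst hi
        simp only [Pi.mulSingle_eq_same, map_one, one_mul, Equiv.swap_apply_def]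
        split_ifs with a1 a2
        · rw [a1]
        · rw [a2]
        · rfl
      · simp [Pi.mulSingle_eq_of_ne hi]
    · by_contra hc
      exact hi (by simp [Pi.mulSingle_eq_of_ne hc])
  ext1 ⟨x, s⟩
  have k2 : ∀ t, t ≠ s → p.1.2 j (x, s) = (x, s) ∨ p.1.2 j (x, s) = (x, t) := by
    intro t ht
    by_contra hc
    push Not at hc
    have h1 := congrArg (fun e : Equiv.Perm (Q j × Fin 3) => e (x, s)) (key x s t).eq
    simp only [Equiv.Perm.mul_apply, Equiv.swap_apply_left] at h1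
    rw [Equiv.swap_apply_of_ne_of_ne hc.1 hc.2] at h1
    have := (p.1.2 j).injective h1
    exact ht (congrArg Prod.snd this).symm
  have a0 : ∀ s : Fin 3, s + 1 ≠ s ∧ s + 2 ≠ s ∧ s + 1 ≠ s + 2 := by decide
  obtain ⟨a1, a2, a3⟩ := a0 s
  rcases k2 _ a1 with h | h
  · exact h
  · rcases k2 _ a2 with h' | h'
    · exact h'
    · exact absurd (congrArg Prod.snd (h.symm.trans h')) a3

theorem wreath [∀ j, Finite (Q j)] {K : Type} {A : K → Type} [∀ k, CommGroup (A k)]
    [∀ k, Finite (A k)]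
    (ρ : ∀ j, H →* Q j) (μ : ∀ k, H →* A k)
    (hinj : ∀ g, (∀ j, ρ j g = 1) → (∀ k, μ k g = 1) → g = 1)
    (htor : ∀ g, (∀ j, ρ j g = 1) → IsOfFinOrder g)
    (hc : {g | ∀ j, ρ j g = 1}.Countable) :
    ((∀ g : W ρ, g ≠ 1 → ∃ N : Subgroup (W ρ), N.Normal ∧ N.index ≠ 0 ∧ g ∉ N) ∧
      Monoid.IsTorsion (W ρ) ∧ (∀ g : W ρ, Set.Finite {h : W ρ | IsConj g h})) ∧
      Countable (Subgroup.center (W ρ)) := by
  refine ⟨props (Q := fun j => Equiv.Perm (Q j × Fin 3))
    (fun j => ((Pi.evalMonoidHom _ j).comp (MonoidHom.snd _ _)).comp (W ρ).subtype)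
    (fun k => ((μ k).comp (MonoidHom.fst _ _)).comp (W ρ).subtype) (fun g => g.2.2)
    (fun g h1 h2 => ?_) (fun g h1 => ?_), ?_⟩
  · ext1
    ext1
    · exact hinj _ (fun j => W_one ρ g j (h1 j)) h2
    · funext j; exact h1 j
  · obtain ⟨n, hn, e⟩ := isOfFinOrder_iff_pow_eq_one.1 (htor _ fun j => W_one ρ g j (h1 j))
    refine isOfFinOrder_iff_pow_eq_one.2 ⟨n, hn, ?_⟩
    ext1
    ext1
    · exact e
    · funext j
      have : g.1.2 j = 1 := h1 j
      simp [this]
  · haveI := hc.to_subtype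
    refine Function.Injective.countable
      (f := fun p : Subgroup.center (W ρ) => (⟨p.1.1.1, fun j => W_one ρ p.1 j
        (center_triv ρ p.1 p.2 j)⟩ : {g | ∀ j, ρ j g = 1})) fun p q e => ?_
    ext1
    ext1
    ext1
    · exact congrArg Subtype.val e
    · funext j
      rw [center_triv ρ p.1 p.2 j, center_triv ρ q.1 q.2 j]

end W

end Pool.Agent.H.MP_998096_al
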