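import Pool.Agent.H.MP_998096_al.Grp
import Pool.Agent.H.MP_998096_al.Wreath
import Pool.Agent.H.MP_998096_al.Diag

set_option autoImplicit false

namespace Pool.Agent.H.MP_998096_al

noncomputable def uu (j : J) : G0 := ⟨Finsupp.single j (1, 0), 0⟩
noncomputable def vv (j : J) : G0 := ⟨Finsupp.single j (0, 1), 0⟩

theorem comm_same (j : J) : uu j * vv j = cen β (Multiplicative.ofAdd (c j)) * (vv j * uu j) := by
  ext1
  · simp [uu, vv, cen, add_comm]
  · simp [uu, vv, cen, β_single, κ_one]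

theorem comm_ne (i j : J) (h : i ≠ j) : uu i * vv j = vv j * uu i := by
  ext1
  · simp [uu, vv, add_comm]
  · simp [uu, vv, β_single, Finsupp.single_eq_of_ne h]

theorem bad_fin {Q : Type} [Group Q] [Finite Q] (φ : G0 →* Q) :
    {j : J | φ (cen β (Multiplicative.ofAdd (c j))) ≠ 1}.Finite := by
  refine Set.Finite.of_injOn (f := fun j => φ (uu j)) (t := Set.univ) (Set.mapsTo_univ _ _) ?_
    Set.finite_univ
  intro i _ j hj e
  by_contra hij
  have e' : φ (uu i) = φ (uu j) := e
  have h1 := congrArg φ (comm_ne i j hij)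
  have h2 := congrArg φ (comm_same j)
  rw [map_mul, map_mul, e'] at h1
  rw [map_mul, map_mul, map_mul, h1] at h2
  exact hj (by simpa using h2.symm)

theorem pow_kill {Q : Type} [Group Q] [Finite Q] (x : Q) (m : ℕ) (hm : Nat.card Q ≤ m)
    (h : x ^ 2 ^ (m + 1) = 1) : x ^ 2 ^ m = 1 := by
  obtain ⟨e, _, he⟩ := (Nat.dvd_prime_pow Nat.prime_two).1 (orderOf_dvd_of_pow_eq_one h)
  have h1 : orderOf x ≤ Nat.card Q := orderOf_le_card
  have h2 : e < 2 ^ e := Nat.lt_two_pow_self
  apply orderOf_dvd_iff_pow_eq_one.1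
  rw [he]
  exact pow_dvd_pow _ (by omega)

theorem G0_not (ι : Type) (Q : ι → Type) [∀ i, Group (Q i)] [∀ i, Finite (Q i)]
    (f : G0 →* ((i : ι) → Q i)) (hf : Function.Injective f)
    (hfin : ∀ g, Set.Finite {i : ι | f g i ≠ 1}) : False := by
  let K : ι → AddSubgroup C := fun i =>
    Subgroup.toAddSubgroup' ((((Pi.evalMonoidHom Q i).comp f).comp (cen β)).ker)
  have hK : ∀ i x, x ∈ K i ↔ f (cen β (Multiplicative.ofAdd x)) i = 1 := fun i x => Iff.rfl
  refine diag b y K (fun i => Nat.card (Q i)) (fun k => ?_) (fun x => ?_) (fun i => ?_)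
    (fun i α m hm => ?_)
  · by_contra hc
    push Not at hc
    have : f (cen β (Multiplicative.ofAdd (b k))) = f 1 := by
      rw [map_one]
      funext i
      exact (hK i _).1 (hc i)
    have h2 := congrArg (fun g : G0 => g.c.1 k) (hf this)
    simp [cen, b] at h2
  · exact hfin _
  · refine ((bad_fin ((Pi.evalMonoidHom Q i).comp f)).image Prod.fst).subset ?_
    rintro α ⟨n, hn⟩
    exact ⟨(α, n), hn, rfl⟩
  · rw [hK, y, ofAdd_nsmul, map_pow, map_pow, Pi.pow_apply]
    refine pow_kill _ m hm ?_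
    rw [← Pi.pow_apply, ← map_pow, ← map_pow, ← ofAdd_nsmul, w_ord (α, m)]
    simp

end Pool.Agent.H.MP_998096_al
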